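import Pool.Agent.CPL.FIN

set_option autoImplicit false

/-!
# MP_dc77a2_pr: the limit laws of the circle packing measure form a continuum

The law of `μ_n` and the law of `μ_{n+1}` have asymptotically the same integrals of every continuous
function on `M/SO(3)`. Hence the set of subsequential limit laws is compact and connected: either
`μ_n` converges in law, or there are uncountably many different limit laws.
-/

namespace Pool.Agent.Results.MP_dc77a2_pr.LimitContinuum

open Pool.Agent.CPL Filter Topology MeasureTheory

/-- Let `D` be a choice of circle packings and normalising Möbius transformations of all rooted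
simple triangulations. For every continuous `G` on `M/SO(3)` the means of `G` under the laws of
`μ_n` and `μ_{n+1}` differ by `o(1)`; the set of the limit laws of subsequences of `μ_n` is compact
and connected; if it is countable then `μ_n` converges in law. -/
theorem result (D : Family) :
    (∀ G : ModSO3 → ℝ, Continuous G →
      Tendsto (fun n => ∫ x, G x ∂(law D (n + 1) : Measure ModSO3) -
        ∫ x, G x ∂(law D n : Measure ModSO3)) atTop (𝓝 0)) ∧
    IsCompact (limitLaws D) ∧ IsConnected (limitLaws D) ∧
    ((limitLaws D).Countable → ∃ Λ, Tendsto (law D) atTop (𝓝 Λ)) :=
  main D

end Pool.Agent.Results.MP_dc77a2_pr.LimitContinuum
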